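import Pool.Agent.H.MP_646617_gt.A

set_option autoImplicit false
set_option maxHeartbeats 400000
set_option linter.unusedSectionVars false

namespace Pool.Agent.Results.MP_646617_gt.All

open Set MeasureTheory Bundle Pool.Agent.H.MP_646617_gt
open scoped Manifold ContDiff

variable (E : Type) [NormedAddCommGroup E] [NormedSpace ℝ E] {X : Type} [MetricSpace X]
  [ChartedSpace E X] [RiemannianBundle fun x : X => TangentSpace 𝓘(ℝ, E) x]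

/-- The differential of a real function, as a covector. -/
noncomputable def dd (f : X → ℝ) (x : X) : TangentSpace 𝓘(ℝ, E) x →L[ℝ] ℝ :=
  mfderiv 𝓘(ℝ, E) 𝓘(ℝ, ℝ) f x

/-- `⟨∇ f, ∇ φ⟩` at `x` for the Riemannian metric, written by polarisation. -/
noncomputable def pairing (f φ : X → ℝ) (x : X) : ℝ :=
  (‖dd E (f + φ) x‖ ^ 2 - ‖dd E (f - φ) x‖ ^ 2) / 4

variable [MeasurableSpace X] [BorelSpace X]

/-- `f` is smooth and `Δ f = lam f` (tested against all smooth functions; Green's formula). -/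
def Eig (lam : ℝ) (f : X → ℝ) : Prop :=
  ContMDiff 𝓘(ℝ, E) 𝓘(ℝ, ℝ) ∞ f ∧ ∀ φ : X → ℝ, ContMDiff 𝓘(ℝ, E) 𝓘(ℝ, ℝ) ∞ φ →
    ∫ x, pairing E f φ x ∂μH[Module.finrank ℝ E] = lam * ∫ x, f x * φ x ∂μH[Module.finrank ℝ E]

variable {G : Type} [Group G] [MulAction G X]

variable (X) in
/-- `λ_j (Γ \ X)`: the least `t` such that there are `j + 1` linearly independent `Γ`-invariant
eigenfunctions with eigenvalues at most `t`. -/
noncomputable def ev (Γ : Set G) (j : ℕ) : ℝ :=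
  sInf {t | ∃ f : Fin (j + 1) → X → ℝ, LinearIndependent ℝ f ∧
    ∀ i, (∀ γ ∈ Γ, ∀ x, f i (γ • x) = f i x) ∧ ∃ lam ≤ t, Eig E lam (f i)}

section
variable {E} [IsIsometricSMul G X] (hs : ∀ g : G, ContMDiff 𝓘(ℝ, E) 𝓘(ℝ, E) ∞ fun x : X => g • x)
  (hi : ∀ (g : G) (x : X) (v : TangentSpace 𝓘(ℝ, E) x),
    ‖mfderiv 𝓘(ℝ, E) 𝓘(ℝ, E) (fun x : X => g • x) x v‖ = ‖v‖)
include hs hi

lemma d1 {f : X → ℝ} (hf : ContMDiff 𝓘(ℝ, E) 𝓘(ℝ, ℝ) ∞ f) (g : G) (x : X) :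
    ‖dd E (fun x => f (g • x)) x‖ ≤ ‖dd E f (g • x)‖ := by
  refine ContinuousLinearMap.opNorm_le_bound _ (ContinuousLinearMap.opNorm_nonneg _) fun v => ?_
  have e : dd E (fun x => f (g • x)) x v =
      dd E f (g • x) (mfderiv 𝓘(ℝ, E) 𝓘(ℝ, E) (fun x : X => g • x) x v) :=
    mfderiv_comp_apply x ((hf _).mdifferentiableAt (by simp)) ((hs g x).mdifferentiableAt (by simp)) v
  rw [e, ← hi g x v]
  exact ContinuousLinearMap.le_opNorm _ _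

lemma d2 {f : X → ℝ} (hf : ContMDiff 𝓘(ℝ, E) 𝓘(ℝ, ℝ) ∞ f) (g : G) (x : X) :
    ‖dd E (fun x => f (g • x)) x‖ = ‖dd E f (g • x)‖ := by
  refine (d1 hs hi hf g x).antisymm ?_
  have := d1 hs hi (f := fun x => f (g • x)) (hf.comp (hs g)) g⁻¹ (g • x)
  simp only [smul_inv_smul] at this
  rwa [inv_smul_smul] at this

lemma eig {f : X → ℝ} {lam : ℝ} (hf : Eig E lam f) (g : G) : Eig E lam fun x => f (g • x) := by
  refine ⟨hf.1.comp (hs g), fun φ hφ => ?_⟩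
  have h : ContMDiff 𝓘(ℝ, E) 𝓘(ℝ, ℝ) ∞ fun x => φ (g⁻¹ • x) := hφ.comp (hs g⁻¹)
  have := hf.2 _ h
  rw [← integral_smul_eq_self _ (g := g), ← integral_smul_eq_self (fun x => f x * _) (g := g)] at this
  simp only [inv_smul_smul, pairing, ← d2 hs hi (hf.1.add h) g,
    ← d2 hs hi (f := f - fun x => φ (g⁻¹ • x)) (hf.1.sub h) g, Pi.add_apply, Pi.sub_apply] at this
  exact this

lemma conj (S : Set G) (z : G) : ev E X ((fun g => z * g * z⁻¹) '' S) = ev E X S := by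
  have k : ∀ (S T : Set G) (z : G) (j : ℕ) (t : ℝ), (∀ s ∈ S, z * s * z⁻¹ ∈ T) →
      (∃ f : Fin (j + 1) → X → ℝ, LinearIndependent ℝ f ∧
        ∀ i, (∀ γ ∈ T, ∀ x, f i (γ • x) = f i x) ∧ ∃ lam ≤ t, Eig E lam (f i)) →
      ∃ f : Fin (j + 1) → X → ℝ, LinearIndependent ℝ f ∧
        ∀ i, (∀ γ ∈ S, ∀ x, f i (γ • x) = f i x) ∧ ∃ lam ≤ t, Eig E lam (f i) := by
    rintro S T z j t h ⟨f, f1, f2⟩
    refine ⟨fun i x => f i (z • x), f1.map' (LinearMap.funLeft ℝ ℝ fun x : X => z • x)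
      (LinearMap.ker_eq_bot.2 (LinearMap.funLeft_injective_of_surjective _ _ _
        (MulAction.surjective z))), fun i => ⟨fun γ hγ x => ?_, ?_⟩⟩
    · simpa [mul_smul] using (f2 i).1 _ (h γ hγ) (z • x)
    · obtain ⟨l, a, b⟩ := (f2 i).2
      exact ⟨l, a, eig hs hi b z⟩
  funext j
  refine congrArg sInf (Set.ext fun t => ⟨k _ _ z j t fun s h => ⟨s, h, rfl⟩, k _ _ z⁻¹ j t ?_⟩)
  rintro _ ⟨s, h, rfl⟩
  simpa [mul_assoc] using h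

end

theorem result [FiniteDimensional ℝ E] [IsManifold 𝓘(ℝ, E) ∞ X] [CompactSpace X]
    [IsContMDiffRiemannianBundle 𝓘(ℝ, E) ∞ E fun x : X => TangentSpace 𝓘(ℝ, E) x]
    [IsRiemannianManifold 𝓘(ℝ, E) X]
    (F : Type) [NormedAddCommGroup F] [NormedSpace ℝ F] [FiniteDimensional ℝ F]
    [TopologicalSpace G] [ChartedSpace F G] [LieGroup 𝓘(ℝ, F) ∞ G] [CompactSpace G] [T2Space G]
    [IsIsometricSMul G X] (hs : ∀ g : G, ContMDiff 𝓘(ℝ, E) 𝓘(ℝ, E) ∞ fun x : X => g • x)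
    (hi : ∀ (g : G) (x : X) (v : TangentSpace 𝓘(ℝ, E) x),
      ‖mfderiv 𝓘(ℝ, E) 𝓘(ℝ, E) (fun x : X => g • x) x v‖ = ‖v‖)
    (ε : ℝ) (hε : 0 < ε) : ∃ N : ℕ, ∀ Γ₁ Γ₂ : Subgroup G, Finite Γ₁ → Finite Γ₂ →
      ε < 1 / (Nat.card Γ₁ : ℝ) → ε < 1 / (Nat.card Γ₂ : ℝ) →
      ((∀ j, ev E X (Γ₁ : Set G) j = ev E X (Γ₂ : Set G) j) ↔
        ∀ j < N, ev E X (Γ₁ : Set G) j = ev E X (Γ₂ : Set G) j) := by
  have := FiniteDimensional.complete ℝ F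
  obtain ⟨q, hq⟩ := exists_nat_gt (1 / ε)
  obtain ⟨s, s1, s2⟩ := fin_sub F (G := G) q
  have b : ∀ Γ : Subgroup G, Finite Γ → ε < 1 / (Nat.card Γ : ℝ) →
      ∃ S ∈ s, ev E X (Γ : Set G) = ev E X S := fun Γ h e => by
    have p : (0 : ℝ) < Nat.card Γ := by exact_mod_cast Nat.card_pos
    obtain ⟨S, a, z, c⟩ := s2 Γ h (by exact_mod_cast (((lt_one_div hε p).1 e).trans hq).le)
    exact ⟨S, a, c ▸ conj hs hi S z⟩
  have c : ∀ p : Set G × Set G, ∃ n : ℕ, (∀ j < n, ev E X p.1 j = ev E X p.2 j) →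
      ∀ j, ev E X p.1 j = ev E X p.2 j := fun p => by
    by_cases h : ∀ j, ev E X p.1 j = ev E X p.2 j
    · exact ⟨0, fun _ => h⟩
    · obtain ⟨j, hj⟩ := not_forall.1 h
      exact ⟨j + 1, fun a => (hj (a j j.lt_succ_self)).elim⟩
  choose n hn using c
  obtain ⟨N, hN⟩ := ((s1.prod s1).image n).bddAbove
  refine ⟨N, fun Γ₁ Γ₂ f1 f2 e1 e2 => ⟨fun h j _ => h j, fun h => ?_⟩⟩
  obtain ⟨S, a, a'⟩ := b Γ₁ f1 e1
  obtain ⟨T, c, c'⟩ := b Γ₂ f2 e2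
  rw [a', c'] at h ⊢
  exact hn (S, T) fun j hj => h j (hj.trans_le (hN ⟨(S, T), ⟨a, c⟩, rfl⟩))

end Pool.Agent.Results.MP_646617_gt.All
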